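import Pool.Agent.H8.AV3.Stmts4

/-!
# Many cubics over a finite field are nice
-/

set_option autoImplicit false

namespace Pool.Agent.H65.AV3B

open Pool.AV3

namespace NDN

variable {k : Type} [Field k]

/-- The cubics with a flex. -/
def Φ (p : k × k × k) : k × k × k :=
  (p.2.2 ^ 2 - 3 * p.1, 3 * p.1 ^ 2 + 2 * p.2.2 * (p.2.1 - p.2.2 * p.1),
    (p.2.1 - p.2.2 * p.1) ^ 2 - p.1 ^ 3)

theorem invol (p : k × k × k) : Φ (p.1, -p.2.1, -p.2.2) = Φ p := by
  obtain ⟨x, y, l⟩ := p
  simp only [Φ, Prod.mk.injEq]
  refine ⟨by ring, by ring, by ring⟩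

theorem range_card [Fintype k] [DecidableEq k] (h2 : (2 : k) ≠ 0) :
    2 * (Finset.univ.image (Φ (k := k))).card ≤ Fintype.card k ^ 3 + Fintype.card k := by
  set A : Finset (k × k × k) := Finset.univ.filter fun p => p.2 = (0, 0) with hA
  set B : Finset (k × k × k) := Finset.univ.filter fun p => ¬ p.2 = (0, 0) with hB
  have hAB : (Finset.univ : Finset (k × k × k)) = A ∪ B := by
    ext p; simp [hA, hB, em]
  have hsum : A.card + B.card = Fintype.card k ^ 3 := by
    rw [hA, hB, Finset.card_filter_add_card_filter_not, Finset.card_univ, Fintype.card_prod,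
      Fintype.card_prod]
    ring
  have hAc : A.card = Fintype.card k := by
    have : A = Finset.univ.image (fun x : k => ((x, (0, 0)) : k × k × k)) := by
      ext ⟨x, y, l⟩
      simp [hA]
      tauto
    rw [this, Finset.card_image_of_injective _ (fun x y h => by simpa using h), Finset.card_univ]
  have hBi : 2 * (B.image (Φ (k := k))).card ≤ B.card := by
    apply Finset.mul_card_image_le_card
    intro z hz
    obtain ⟨p, hp, rfl⟩ := Finset.mem_image.1 hz
    have hne : p ≠ (p.1, -p.2.1, -p.2.2) := by
      intro h
      obtain ⟨x, y, l⟩ := p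
      simp only [Prod.mk.injEq, true_and] at h
      have hp' := (Finset.mem_filter.1 hp).2
      apply hp'
      have e1 : (2 : k) * y = 0 := by linear_combination h.1
      have e2 : (2 : k) * l = 0 := by linear_combination h.2
      simp only [Prod.mk.injEq]
      exact ⟨(mul_eq_zero.1 e1).resolve_left h2, (mul_eq_zero.1 e2).resolve_left h2⟩
    rw [← Finset.card_pair hne]
    apply Finset.card_le_card
    intro q hq
    rcases Finset.mem_insert.1 hq with rfl | hq
    · exact Finset.mem_filter.2 ⟨hp, rfl⟩
    · rw [Finset.mem_singleton.1 hq]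
      refine Finset.mem_filter.2 ⟨?_, invol p⟩
      refine Finset.mem_filter.2 ⟨Finset.mem_univ _, ?_⟩
      intro h
      apply (Finset.mem_filter.1 hp).2
      simp only [Prod.mk.injEq, neg_eq_zero] at h
      exact Prod.ext h.1 h.2
  have hle : (Finset.univ.image (Φ (k := k))).card ≤ A.card + (B.image (Φ (k := k))).card := by
    rw [hAB, Finset.image_union]
    exact (Finset.card_union_le _ _).trans (Nat.add_le_add_right Finset.card_image_le _)
  omega

theorem sq_card [Fintype k] [DecidableEq k] (h2 : (2 : k) ≠ 0) :
    2 * (Finset.univ.image (fun x : k => x * x)).card ≤ Fintype.card k + 1 := by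
  set B : Finset k := Finset.univ.erase 0 with hB
  have hBc : B.card + 1 = Fintype.card k := by
    rw [hB, Finset.card_erase_add_one (Finset.mem_univ _), Finset.card_univ]
  have hBi : 2 * (B.image (fun x : k => x * x)).card ≤ B.card := by
    apply Finset.mul_card_image_le_card
    intro z hz
    obtain ⟨p, hp, rfl⟩ := Finset.mem_image.1 hz
    have hp0 : p ≠ 0 := (Finset.mem_erase.1 hp).1
    have hne : p ≠ -p := by
      intro h
      have e1 : (2 : k) * p = 0 := by linear_combination h
      exact hp0 ((mul_eq_zero.1 e1).resolve_left h2)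
    rw [← Finset.card_pair hne]
    apply Finset.card_le_card
    intro q hq
    rcases Finset.mem_insert.1 hq with rfl | hq
    · exact Finset.mem_filter.2 ⟨hp, rfl⟩
    · rw [Finset.mem_singleton.1 hq]
      refine Finset.mem_filter.2 ⟨Finset.mem_erase.2 ⟨neg_ne_zero.2 hp0, Finset.mem_univ _⟩, ?_⟩
      ring
  have hle : (Finset.univ.image (fun x : k => x * x)).card ≤
      1 + (B.image (fun x : k => x * x)).card := by
    have : (Finset.univ : Finset k) = {0} ∪ B := by
      ext x; simp [hB, em]
    rw [this, Finset.image_union]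
    refine (Finset.card_union_le _ _).trans (Nat.add_le_add_right ?_ _)
    exact Finset.card_image_le.trans (by simp)
  omega

end NDN

open NDN

theorem ndn_thm : Pool.AV3.NDNStmt := by
  intro k _ _ h2
  classical
  haveI : Fintype k := Fintype.ofFinite k
  have hq : 2 ≤ Fintype.card k := Fintype.one_lt_card
  rw [Nat.card_eq_fintype_card]
  set q := Fintype.card k with hqd
  by_cases h3 : (3 : k) = 0
  · have hs : {f : k × k × k | ¬ Nice f} =
        ((((Finset.univ.image (fun x : k => x * x)) ×ˢ (Finset.univ : Finset (k × k)) :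
          Finset (k × k × k))) : Set (k × k × k)) := by
      ext ⟨a, b, c⟩
      simp only [Nice, Set.mem_setOf_eq, Finset.coe_product, Finset.coe_image, Finset.coe_univ,
        Set.image_univ, Set.mem_prod, Set.mem_range, Set.mem_univ, and_true]
      rw [not_and_or]
      constructor
      · rintro (h | h)
        · exact absurd (fun h' => absurd h3 h') h
        · push Not at h
          obtain ⟨x, hx⟩ := h.2
          exact ⟨x, hx.symm⟩
      · rintro ⟨x, hx⟩
        right
        intro h
        exact h h3 ⟨x, hx.symm⟩
    rw [hs, Set.ncard_coe_finset, Finset.card_product, Finset.card_univ, Fintype.card_prod]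
    have h := sq_card (k := k) h2
    rw [← hqd] at h ⊢
    have e : 2 * ((Finset.univ.image (fun x : k => x * x)).card * (q * q)) ≤ (q + 1) * (q * q) := by
      rw [← mul_assoc]
      exact Nat.mul_le_mul_right _ h
    nlinarith [Nat.mul_le_mul_right (q * q) hq]
  · have hs : {f : k × k × k | ¬ Nice f} =
        ((Finset.univ.image (Φ (k := k)) : Finset (k × k × k)) : Set (k × k × k)) := by
      ext ⟨a, b, c⟩
      simp only [Nice, Set.mem_setOf_eq, Finset.coe_image, Finset.coe_univ,
        Set.image_univ, Set.mem_range]
      rw [not_and_or]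
      constructor
      · rintro (h | h)
        · push Not at h
          obtain ⟨x, y, l, ha, hb, hc⟩ := h.2
          exact ⟨(x, y, l), by simp only [Φ, Prod.mk.injEq]; exact ⟨ha.symm, hb.symm, hc.symm⟩⟩
        · exact absurd (fun h' => absurd h' h3) h
      · rintro ⟨⟨x, y, l⟩, hx⟩
        simp only [Φ, Prod.mk.injEq] at hx
        left
        intro h
        exact h h3 ⟨x, y, l, hx.1.symm, hx.2.1.symm, hx.2.2.symm⟩
    rw [hs, Set.ncard_coe_finset]
    have h := range_card (k := k) h2
    rw [← hqd] at h
    have e : 4 * q ≤ q * q * q := by nlinarith [Nat.mul_le_mul hq hq, Nat.mul_le_mul (Nat.mul_le_mul hq hq) hq]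
    nlinarith [h, e, pow_three q]

end Pool.Agent.H65.AV3B
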