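import Pool.Agent.H8.AV3.Stmts4

/-!
# Translations do not change the number of points
-/

set_option autoImplicit false

namespace Pool.Agent.H65.AV3B

open Pool.AV3

theorem nsh_thm : Pool.AV3.NSHStmt := by
  intro R _ η f
  obtain ⟨a, b, c⟩ := f
  unfold nET AVS.nE
  have h : {p : R × R | p.2 ^ 2 = p.1 ^ 3 + a * p.1 ^ 2 + b * p.1 + c} =
      (fun p : R × R => (p.1 + η, p.2)) '' {p : R × R | p.2 ^ 2 = p.1 ^ 3 +
        (sh η (a, b, c)).1 * p.1 ^ 2 + (sh η (a, b, c)).2.1 * p.1 + (sh η (a, b, c)).2.2} := by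
    ext ⟨x, y⟩
    simp only [Set.mem_setOf_eq, Set.mem_image, Prod.mk.injEq, Prod.exists, sh]
    constructor
    · intro hx
      refine ⟨x - η, y, ?_, by ring, rfl⟩
      rw [hx]; ring
    · rintro ⟨x', y', hx, rfl, rfl⟩
      rw [hx]; ring
  rw [show ({p : R × R | p.2 ^ 2 = p.1 ^ 3 + (a, b, c).1 * p.1 ^ 2 + (a, b, c).2.1 * p.1 +
    (a, b, c).2.2}) = {p : R × R | p.2 ^ 2 = p.1 ^ 3 + a * p.1 ^ 2 + b * p.1 + c} from rfl, h]
  rw [Set.ncard_image_of_injective]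
  intro p p' hp
  simp only [Prod.mk.injEq, add_left_inj] at hp
  exact Prod.ext hp.1 hp.2

end Pool.Agent.H65.AV3B
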